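import Pool.Agent.H53.SGC.TopDefs

/-! # SGC, module COMB: the combinatorial theorem -/

set_option autoImplicit false

namespace Pool.SG

open Finset

/-! ### the algebraic identity -/

private def cfc (r j : ℕ) : ℕ := if j < r then j else j + 1

private theorem comb_alg (U : ℕ → ℕ → ZMod 2) (N : ℕ) :
    ∏ i ∈ range (N + 1), (U i i + U i (i + 1)) = ∑ r ∈ range (N + 2),
      U 0 (cfc r 0) * ∏ i ∈ range N, (U (i + 1) (cfc r i) + U (i + 1) (cfc r (i + 1))) := by
  induction N with
  | zero =>
    simp [sum_range_succ, cfc, add_comm]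
  | succ N ih =>
    rw [prod_range_succ, ih, sum_range_succ _ (N + 1), sum_range_succ _ (N + 1 + 1),
      sum_range_succ _ (N + 1)]
    have h1 : ∀ r ∈ range (N + 1), U 0 (cfc r 0) * ∏ i ∈ range (N + 1),
        (U (i + 1) (cfc r i) + U (i + 1) (cfc r (i + 1))) =
        (U 0 (cfc r 0) * ∏ i ∈ range N, (U (i + 1) (cfc r i) + U (i + 1) (cfc r (i + 1)))) *
          (U (N + 1) (N + 1) + U (N + 1) (N + 1 + 1)) := by
      intro r hr
      have hr' := mem_range.1 hr
      rw [prod_range_succ, ← mul_assoc]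
      congr 2
      · unfold cfc
        rw [if_neg (by omega)]
      · unfold cfc
        rw [if_neg (by omega)]
    rw [sum_congr rfl h1, ← sum_mul, prod_range_succ, prod_range_succ]
    have h2 : ∏ i ∈ range N, (U (i + 1) (cfc (N + 1 + 1) i) + U (i + 1) (cfc (N + 1 + 1) (i + 1))) =
        ∏ i ∈ range N, (U (i + 1) (cfc (N + 1) i) + U (i + 1) (cfc (N + 1) (i + 1))) := by
      refine prod_congr rfl fun i hi => ?_
      have hi' := mem_range.1 hi
      unfold cfc
      rw [if_pos (by omega), if_pos (by omega), if_pos (by omega), if_pos (by omega)]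
    have h3 : U 0 (cfc (N + 1 + 1) 0) = U 0 (cfc (N + 1) 0) := by
      unfold cfc
      rw [if_pos (by omega), if_pos (by omega)]
    have h4 : cfc (N + 1) N = N := by unfold cfc; rw [if_pos (by omega)]
    have h5 : cfc (N + 1) (N + 1) = N + 1 + 1 := by unfold cfc; rw [if_neg (by omega)]
    have h6 : cfc (N + 1 + 1) N = N := by unfold cfc; rw [if_pos (by omega)]
    have h7 : cfc (N + 1 + 1) (N + 1) = N + 1 := by unfold cfc; rw [if_pos (by omega)]
    rw [h2, h3, h4, h5, h6, h7]
    have h8 : U (N + 1) N + U (N + 1) N = 0 := CharTwo.add_self_eq_zero _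
    set Q := ∏ i ∈ range N, (U (i + 1) (cfc (N + 1) i) + U (i + 1) (cfc (N + 1) (i + 1)))
    linear_combination (-(U 0 (cfc (N + 1) 0) * Q)) * h8

private def cPhi {N : ℕ} (u : Fin (N + 1) → (Fin (N + 1) → ℕ) → ZMod 2)
    (v : ℕ → Fin (N + 1) → ℕ) : ZMod 2 :=
  ∏ i : Fin N, (u i.succ (v i) + u i.succ (v (i + 1)))

private def cPsi {N : ℕ} (u : Fin (N + 1) → (Fin (N + 1) → ℕ) → ZMod 2)
    (v : ℕ → Fin (N + 1) → ℕ) : ZMod 2 := u 0 (v 0) * cPhi u v

private theorem cPhi_congr {N : ℕ} (u : Fin (N + 1) → (Fin (N + 1) → ℕ) → ZMod 2)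
    {v v' : ℕ → Fin (N + 1) → ℕ} (h : ∀ j, j ≤ N → ∀ i, u i (v j) = u i (v' j)) :
    cPhi u v = cPhi u v' := by
  unfold cPhi
  refine prod_congr rfl fun i _ => ?_
  rw [h i (by omega), h (i + 1) (by omega)]

private theorem cPsi_congr {N : ℕ} (u : Fin (N + 1) → (Fin (N + 1) → ℕ) → ZMod 2)
    {v v' : ℕ → Fin (N + 1) → ℕ} (h : ∀ j, j ≤ N → ∀ i, u i (v j) = u i (v' j)) :
    cPsi u v = cPsi u v' := by
  unfold cPsi
  rw [cPhi_congr u h, h 0 (by omega)]

private theorem comb_prod {N : ℕ} (u : Fin (N + 1) → (Fin (N + 1) → ℕ) → ZMod 2)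
    (y : ℕ → Fin (N + 1) → ℕ) :
    ∏ i : Fin (N + 1), (u i (y i) + u i (y (i + 1))) =
      ∑ r ∈ range (N + 2), cPsi u (fun j => y (cfc r j)) := by
  let U : ℕ → ℕ → ZMod 2 := fun i j => if h : i < N + 1 then u ⟨i, h⟩ (y j) else 0
  have hU : ∀ (i : Fin (N + 1)) j, U i j = u i (y j) := by
    intro i j
    show (if h : (i : ℕ) < N + 1 then u ⟨i, h⟩ (y j) else 0) = _
    rw [dif_pos i.2]
  have h1 := comb_alg U N
  rw [← Fin.prod_univ_eq_prod_range (fun i => U i i + U i (i + 1)) (N + 1)] at h1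
  have h2 : ∀ i : Fin (N + 1), U i i + U i (i + 1) = u i (y i) + u i (y (i + 1)) := by
    intro i
    rw [hU, hU]
  simp only [h2] at h1
  rw [h1]
  refine sum_congr rfl fun r _ => ?_
  unfold cPsi cPhi
  rw [← Fin.prod_univ_eq_prod_range (fun i => U (i + 1) (cfc r i) + U (i + 1) (cfc r (i + 1))) N]
  have h3 : U 0 (cfc r 0) = u 0 (y (cfc r 0)) := hU 0 _
  rw [h3]
  congr 1
  refine prod_congr rfl fun i _ => ?_
  have h4 : ∀ j, U ((i : ℕ) + 1) j = u i.succ (y j) := fun j => hU i.succ j
  rw [h4, h4]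

/-! ### flags -/

private abbrev CFl (N m : ℕ) := (Fin N → Fin m) × (Fin N → Bool) × Equiv.Perm (Fin N)

private def cy {N m : ℕ} (f : CFl N m) (j : ℕ) : Fin N → ℕ := vtx f.1 f.2.1 f.2.2 j

private theorem cy_lt {N m : ℕ} {f : CFl N m} {j : ℕ} {c : Fin N} (h : (f.2.2 c : ℕ) < j) :
    cy f j c = 2 * (f.1 c : ℕ) + 2 * (f.2.1 c).toNat := if_pos h

private theorem cy_ge {N m : ℕ} {f : CFl N m} {j : ℕ} {c : Fin N} (h : ¬ (f.2.2 c : ℕ) < j) :
    cy f j c = 2 * (f.1 c : ℕ) + 1 := if_neg h

private theorem cy_le {N m : ℕ} (f : CFl N m) (j : ℕ) (c : Fin N) : cy f j c ≤ 2 * m := by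
  have h1 := (f.1 c).2
  have h2 : (f.2.1 c).toNat ≤ 1 := Bool.toNat_le _
  by_cases h : (f.2.2 c : ℕ) < j
  · rw [cy_lt h]
    omega
  · rw [cy_ge h]
    omega

private theorem comb_T (N m : ℕ) (u : Fin N → (Fin N → ℕ) → ZMod 2) :
    Tsum N m u = ∑ f : CFl N m, ∏ i : Fin N, (u i (cy f i) + u i (cy f (i + 1))) := by
  unfold Tsum
  rw [Fintype.sum_prod_type]
  refine sum_congr rfl fun w _ => ?_
  rw [Fintype.sum_prod_type]
  rfl

private theorem comb_inv {α : Type} [DecidableEq α] (s : Finset α) (G : α → ZMod 2) (g : α → α)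
    (h1 : ∀ a ∈ s, G (g a) = G a) (h2 : ∀ a ∈ s, g a ≠ a) (h3 : ∀ a ∈ s, g a ∈ s)
    (h4 : ∀ a ∈ s, g (g a) = a) : ∑ a ∈ s, G a = 0 := by
  refine Finset.sum_involution (fun a _ => g a) ?_ ?_ ?_ ?_
  · intro a ha
    rw [h1 a ha]
    exact CharTwo.add_self_eq_zero _
  · intro a ha _
    exact h2 a ha
  · intro a ha
    exact h3 a ha
  · intro a ha
    exact h4 a ha

/-- the inner faces -/
private theorem comb_mid {N m : ℕ} (u : Fin (N + 1) → (Fin (N + 1) → ℕ) → ZMod 2) {r : ℕ}
    (h0 : 0 < r) (h1 : r ≤ N) : ∑ f : CFl (N + 1) m, cPsi u (fun j => cy f (cfc r j)) = 0 := by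
  classical
  let σ : Equiv.Perm (Fin (N + 1)) := Equiv.swap ⟨r - 1, by omega⟩ ⟨r, by omega⟩
  have hσ : ∀ (x : Fin (N + 1)) (j : ℕ), j ≠ r → ((σ x : ℕ) < j ↔ (x : ℕ) < j) := by
    intro x j hj
    show ((Equiv.swap (⟨r - 1, by omega⟩ : Fin (N + 1)) ⟨r, by omega⟩ x : Fin (N + 1)) : ℕ) < j ↔ _
    rw [Equiv.swap_apply_def]
    split_ifs with a1 a2
    · subst a1
      simp only
      omega
    · subst a2
      simp only
      omega
    · exact Iff.rfl
  refine comb_inv univ _ (fun f => (f.1, f.2.1, σ * f.2.2)) ?_ ?_ (fun _ _ => mem_univ _) ?_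
  · intro f _
    refine cPsi_congr u fun j hj i => ?_
    congr 1
    have hne : cfc r j ≠ r := by
      unfold cfc
      split_ifs <;> omega
    funext c
    by_cases hc : ((f.2.2 c : Fin (N + 1)) : ℕ) < cfc r j
    · rw [cy_lt hc]
      exact cy_lt (f := (f.1, f.2.1, σ * f.2.2)) ((hσ _ _ hne).2 hc)
    · rw [cy_ge hc]
      exact cy_ge (f := (f.1, f.2.1, σ * f.2.2)) (fun h => hc ((hσ _ _ hne).1 h))
  · intro f _ hf
    have h2 : σ * f.2.2 = f.2.2 := congrArg (fun f => f.2.2) hf
    have h3 : σ = 1 := by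
      have := congrArg (· * f.2.2⁻¹) h2
      simpa using this
    have h4 : σ ⟨r, by omega⟩ = ⟨r, by omega⟩ := by rw [h3]; rfl
    have h5 : σ ⟨r, by omega⟩ = ⟨r - 1, by omega⟩ := Equiv.swap_apply_right _ _
    rw [h4] at h5
    have := congrArg Fin.val h5
    simp only at this
    omega
  · intro f _
    have h2 : σ * (σ * f.2.2) = f.2.2 := by
      rw [← mul_assoc]
      have : σ * σ = 1 := Equiv.swap_mul_self _ _
      rw [this, one_mul]
    simp only [h2]

/-- the last face -/
private theorem comb_last {N m : ℕ} (u : Fin (N + 1) → (Fin (N + 1) → ℕ) → ZMod 2) :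
    ∑ f : CFl (N + 1) m, cPsi u (fun j => cy f (cfc (N + 1) j)) = 0 := by
  classical
  refine comb_inv univ _ (fun f => (f.1, Function.update f.2.1 (f.2.2.symm (Fin.last N))
    (!(f.2.1 (f.2.2.symm (Fin.last N)))), f.2.2)) ?_ ?_ (fun _ _ => mem_univ _) ?_
  · intro f _
    refine cPsi_congr u fun j hj i => ?_
    congr 1
    have hne : cfc (N + 1) j = j := by
      unfold cfc
      rw [if_pos (by omega)]
    rw [hne]
    funext c
    by_cases hc : ((f.2.2 c : Fin (N + 1)) : ℕ) < j
    · rw [cy_lt hc, cy_lt (f := (f.1, Function.update f.2.1 (f.2.2.symm (Fin.last N))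
        (!(f.2.1 (f.2.2.symm (Fin.last N)))), f.2.2)) hc]
      simp only
      rw [Function.update_of_ne]
      intro h
      rw [h, Equiv.apply_symm_apply] at hc
      simp at hc
      omega
    · rw [cy_ge hc, cy_ge (f := (f.1, Function.update f.2.1 (f.2.2.symm (Fin.last N))
        (!(f.2.1 (f.2.2.symm (Fin.last N)))), f.2.2)) hc]
  · intro f _ hf
    have h2 := congrFun (congrArg (fun f => f.2.1) hf) (f.2.2.symm (Fin.last N))
    simp at h2
  · intro f _
    simp

/-! ### the first face -/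

/-- the coordinate which is even in all vertices but the first -/
private def cc {N m : ℕ} (f : CFl (N + 1) m) : Fin (N + 1) := f.2.2.symm 0

private theorem cc_lt {N m : ℕ} (f : CFl (N + 1) m) (j : ℕ) : (f.2.2 (cc f) : ℕ) < j + 1 := by
  unfold cc
  rw [Equiv.apply_symm_apply]
  exact Nat.succ_pos _

private def CB0 {N M : ℕ} (f : CFl (N + 1) (M + 1)) : Prop := f.1 (cc f) = 0 ∧ f.2.1 (cc f) = false

private def CB1 {N M : ℕ} (f : CFl (N + 1) (M + 1)) : Prop :=
  f.1 (cc f) = Fin.last M ∧ f.2.1 (cc f) = true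

open Classical in
/-- only the faces `p c = 0` and `p c = 2 m` remain -/
private theorem comb_tele {N M : ℕ} (u : Fin (N + 1) → (Fin (N + 1) → ℕ) → ZMod 2) :
    ∑ f : CFl (N + 1) (M + 1), cPsi u (fun j => cy f (j + 1)) =
      ∑ f ∈ univ.filter (fun f : CFl (N + 1) (M + 1) => CB0 f), cPsi u (fun j => cy f (j + 1)) +
      ∑ f ∈ univ.filter (fun f : CFl (N + 1) (M + 1) => CB1 f), cPsi u (fun j => cy f (j + 1)) := by
  have hd : Disjoint (univ.filter (fun f : CFl (N + 1) (M + 1) => CB0 f))
      (univ.filter (fun f : CFl (N + 1) (M + 1) => CB1 f)) := by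
    rw [disjoint_filter]
    intro f _ h0 h1
    have := h0.2.symm.trans h1.2
    exact absurd this (by decide)
  rw [← sum_union hd, ← filter_or, ← sum_filter_add_sum_filter_not univ
    (fun f : CFl (N + 1) (M + 1) => CB0 f ∨ CB1 f)]
  have h0 : ∑ f ∈ univ.filter (fun f : CFl (N + 1) (M + 1) => ¬ (CB0 f ∨ CB1 f)),
      cPsi u (fun j => cy f (j + 1)) = 0 := by
    refine comb_inv _ _ (fun f => if f.2.1 (cc f) = true then
      (Function.update f.1 (cc f) (f.1 (cc f) + 1), Function.update f.2.1 (cc f) false, f.2.2) else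
      (Function.update f.1 (cc f) (f.1 (cc f) - 1), Function.update f.2.1 (cc f) true, f.2.2))
      ?_ ?_ ?_ ?_
    · intro f hf
      have hf' := (mem_filter.1 hf).2
      refine cPsi_congr u fun j _ i => ?_
      congr 1
      funext c
      by_cases he : f.2.1 (cc f) = true
      · rw [if_pos he]
        by_cases hc : ((f.2.2 c : Fin (N + 1)) : ℕ) < j + 1
        · rw [cy_lt hc, cy_lt (f := (Function.update f.1 (cc f) (f.1 (cc f) + 1),
            Function.update f.2.1 (cc f) false, f.2.2)) hc]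
          simp only
          by_cases hcc : c = cc f
          · subst hcc
            rw [Function.update_self, Function.update_self, he]
            have hne : f.1 (cc f) ≠ Fin.last M := fun h => hf' (Or.inr ⟨h, he⟩)
            rw [Fin.val_add_one_of_lt (lt_of_le_of_ne (Fin.le_last _) hne)]
            simp
            ring
          · rw [Function.update_of_ne hcc, Function.update_of_ne hcc]
        · rw [cy_ge hc, cy_ge (f := (Function.update f.1 (cc f) (f.1 (cc f) + 1),
            Function.update f.2.1 (cc f) false, f.2.2)) hc]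
          simp only
          rw [Function.update_of_ne]
          rintro rfl
          exact hc (cc_lt f j)
      · rw [if_neg he]
        by_cases hc : ((f.2.2 c : Fin (N + 1)) : ℕ) < j + 1
        · rw [cy_lt hc, cy_lt (f := (Function.update f.1 (cc f) (f.1 (cc f) - 1),
            Function.update f.2.1 (cc f) true, f.2.2)) hc]
          simp only
          by_cases hcc : c = cc f
          · subst hcc
            have he' : f.2.1 (cc f) = false := by simpa using he
            rw [Function.update_self, Function.update_self, he']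
            have hne : f.1 (cc f) ≠ 0 := fun h => hf' (Or.inl ⟨h, he'⟩)
            rw [Fin.val_sub_one_of_ne_zero hne]
            have : (f.1 (cc f) : ℕ) ≠ 0 := fun h => hne (Fin.ext h)
            simp
            omega
          · rw [Function.update_of_ne hcc, Function.update_of_ne hcc]
        · rw [cy_ge hc, cy_ge (f := (Function.update f.1 (cc f) (f.1 (cc f) - 1),
            Function.update f.2.1 (cc f) true, f.2.2)) hc]
          simp only
          rw [Function.update_of_ne]
          rintro rfl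
          exact hc (cc_lt f j)
    · intro f _ hf
      by_cases he : f.2.1 (cc f) = true
      · rw [if_pos he] at hf
        have h2 := congrFun (congrArg (fun f => f.2.1) hf) (cc f)
        simp [he] at h2
      · rw [if_neg he] at hf
        have h2 := congrFun (congrArg (fun f => f.2.1) hf) (cc f)
        simp at h2
        exact he h2
    · intro f hf
      have hf' := (mem_filter.1 hf).2
      refine mem_filter.2 ⟨mem_univ _, ?_⟩
      by_cases he : f.2.1 (cc f) = true
      · rw [if_pos he]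
        have hne : f.1 (cc f) ≠ Fin.last M := fun h => hf' (Or.inr ⟨h, he⟩)
        rintro (h | h)
        · have h1 : Function.update f.1 (cc f) (f.1 (cc f) + 1) (cc f) = 0 := h.1
          rw [Function.update_self] at h1
          have h2 := congrArg Fin.val h1
          rw [Fin.val_add_one_of_lt (lt_of_le_of_ne (Fin.le_last _) hne)] at h2
          simp at h2
        · have h1 : Function.update f.2.1 (cc f) false (cc f) = true := h.2
          rw [Function.update_self] at h1
          exact absurd h1 (by decide)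
      · rw [if_neg he]
        have he' : f.2.1 (cc f) = false := by simpa using he
        have hne : f.1 (cc f) ≠ 0 := fun h => hf' (Or.inl ⟨h, he'⟩)
        rintro (h | h)
        · have h1 : Function.update f.2.1 (cc f) true (cc f) = false := h.2
          rw [Function.update_self] at h1
          exact absurd h1 (by decide)
        · have h1 : Function.update f.1 (cc f) (f.1 (cc f) - 1) (cc f) = Fin.last M := h.1
          rw [Function.update_self] at h1
          have h2 := congrArg Fin.val h1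
          rw [Fin.val_sub_one_of_ne_zero hne] at h2
          have h3 := (f.1 (cc f)).2
          have h4 : (f.1 (cc f) : ℕ) ≠ 0 := fun h => hne (Fin.ext h)
          simp only [Fin.val_last] at h2
          omega
    · intro f hf
      by_cases he : f.2.1 (cc f) = true
      · rw [if_pos he]
        have h1 : cc ((Function.update f.1 (cc f) (f.1 (cc f) + 1),
            Function.update f.2.1 (cc f) false, f.2.2) : CFl (N + 1) (M + 1)) = cc f := rfl
        rw [h1]
        simp only [Function.update_self, Bool.false_eq_true, if_false, Function.update_idem,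
          add_sub_cancel_right, Function.update_eq_self]
        rw [← he, Function.update_eq_self]
      · rw [if_neg he]
        have he' : f.2.1 (cc f) = false := by simpa using he
        have h1 : cc ((Function.update f.1 (cc f) (f.1 (cc f) - 1),
            Function.update f.2.1 (cc f) true, f.2.2) : CFl (N + 1) (M + 1)) = cc f := rfl
        rw [h1]
        simp only [Function.update_self, if_true, Function.update_idem,
          sub_add_cancel, Function.update_eq_self]
        rw [← he', Function.update_eq_self]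
  rw [h0, add_zero]

/-- the value of the special coordinate -/
private theorem cy_cc {N m : ℕ} (f : CFl (N + 1) m) (j : ℕ) :
    cy f (j + 1) (cc f) = 2 * (f.1 (cc f) : ℕ) + 2 * (f.2.1 (cc f)).toNat := cy_lt (cc_lt f j)

/-- there is an inner coordinate of the same type -/
private def cP {N : ℕ} (ty : Fin (N + 1) → ℕ) (c : Fin (N + 1)) : Prop :=
  ∃ a, a < c ∧ ty a = ty c

open Classical in
/-- the faces with an inner coordinate of the same type -/
private theorem comb_inner {N M : ℕ} {ty : Fin (N + 1) → ℕ}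
    (u : Fin (N + 1) → (Fin (N + 1) → ℕ) → ZMod 2) (hR : R2 (N + 1) (M + 1) ty u)
    (Q : CFl (N + 1) (M + 1) → Prop) (hQ : ∀ f, Q f → ∀ j, cy f (j + 1) (cc f) = 0 ∨
      cy f (j + 1) (cc f) = 2 * (M + 1))
    (hQ' : ∀ f f' : CFl (N + 1) (M + 1), f.2.2 = f'.2.2 → f.1 (cc f) = f'.1 (cc f) →
      f.2.1 (cc f) = f'.2.1 (cc f) → Q f → Q f') :
    ∑ f ∈ univ.filter (fun f : CFl (N + 1) (M + 1) => Q f ∧ cP ty (cc f)),
      cPsi u (fun j => cy f (j + 1)) = 0 := by
  let α : Fin (N + 1) → Fin (N + 1) := fun c => if h : cP ty c then h.choose else c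
  have hα : ∀ c, cP ty c → α c < c ∧ ty (α c) = ty c := by
    intro c h
    show (if h : cP ty c then h.choose else c) < c ∧ ty (if h : cP ty c then h.choose else c) = _
    rw [dif_pos h]
    exact h.choose_spec
  refine comb_inv _ _ (fun f => (Function.update f.1 (α (cc f)) (Fin.rev (f.1 (α (cc f)))),
    Function.update f.2.1 (α (cc f)) (!(f.2.1 (α (cc f)))), f.2.2)) ?_ ?_ ?_ ?_
  · intro f hf
    obtain ⟨hf1, hf2⟩ := (mem_filter.1 hf).2
    obtain ⟨h1, h2⟩ := hα _ hf2
    refine cPsi_congr u fun j _ i => ?_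
    rw [hR i (α (cc f)) (cc f) (cy f (j + 1)) (cy_le f _) h1 h2 (hQ f hf1 j)]
    congr 1
    funext c
    by_cases hcc : c = α (cc f)
    · rw [hcc, Function.update_self]
      have hw := (f.1 (α (cc f))).2
      by_cases hc : ((f.2.2 (α (cc f)) : Fin (N + 1)) : ℕ) < j + 1
      · rw [cy_lt hc, cy_lt (f := (Function.update f.1 (α (cc f)) (Fin.rev (f.1 (α (cc f)))),
          Function.update f.2.1 (α (cc f)) (!(f.2.1 (α (cc f)))), f.2.2)) hc]
        simp only
        rw [Function.update_self, Function.update_self, Fin.val_rev]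
        cases f.2.1 (α (cc f)) <;> simp <;> omega
      · rw [cy_ge hc, cy_ge (f := (Function.update f.1 (α (cc f)) (Fin.rev (f.1 (α (cc f)))),
          Function.update f.2.1 (α (cc f)) (!(f.2.1 (α (cc f)))), f.2.2)) hc]
        simp only
        rw [Function.update_self, Fin.val_rev]
        omega
    · rw [Function.update_of_ne hcc]
      by_cases hc : ((f.2.2 c : Fin (N + 1)) : ℕ) < j + 1
      · rw [cy_lt hc, cy_lt (f := (Function.update f.1 (α (cc f)) (Fin.rev (f.1 (α (cc f)))),
          Function.update f.2.1 (α (cc f)) (!(f.2.1 (α (cc f)))), f.2.2)) hc]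
        simp only
        rw [Function.update_of_ne hcc, Function.update_of_ne hcc]
      · rw [cy_ge hc, cy_ge (f := (Function.update f.1 (α (cc f)) (Fin.rev (f.1 (α (cc f)))),
          Function.update f.2.1 (α (cc f)) (!(f.2.1 (α (cc f)))), f.2.2)) hc]
        simp only
        rw [Function.update_of_ne hcc]
  · intro f _ hf
    have h2 := congrFun (congrArg (fun f => f.2.1) hf) (α (cc f))
    simp at h2
  · intro f hf
    obtain ⟨hf1, hf2⟩ := (mem_filter.1 hf).2
    obtain ⟨h1, h2⟩ := hα _ hf2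
    refine mem_filter.2 ⟨mem_univ _, hQ' f _ rfl ?_ ?_ hf1, hf2⟩
    · exact (Function.update_of_ne (Ne.symm (ne_of_lt h1)) _ _).symm
    · exact (Function.update_of_ne (Ne.symm (ne_of_lt h1)) _ _).symm
  · intro f hf
    have h1 : cc ((Function.update f.1 (α (cc f)) (Fin.rev (f.1 (α (cc f)))),
        Function.update f.2.1 (α (cc f)) (!(f.2.1 (α (cc f)))), f.2.2) :
          CFl (N + 1) (M + 1)) = cc f := rfl
    rw [h1]
    simp

/-- the reflection of the outer coordinates of the same type, the special coordinate is replaced -/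
private def crf {N M : ℕ} (ty : Fin (N + 1) → ℕ) (v : Fin (M + 1)) (b : Bool)
    (f : CFl (N + 1) (M + 1)) : CFl (N + 1) (M + 1) :=
  (fun a => if a = cc f then v else if cc f < a ∧ ty a = ty (cc f) then Fin.rev (f.1 a) else f.1 a,
   fun a => if a = cc f then b else if cc f < a ∧ ty a = ty (cc f) then !(f.2.1 a) else f.2.1 a,
   f.2.2)

private theorem crf_crf {N M : ℕ} (ty : Fin (N + 1) → ℕ) (v v' : Fin (M + 1)) (b b' : Bool)
    (f : CFl (N + 1) (M + 1)) (h1 : f.1 (cc f) = v) (h2 : f.2.1 (cc f) = b) :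
    crf ty v b (crf ty v' b' f) = f := by
  have hc : cc (crf ty v' b' f) = cc f := rfl
  refine Prod.ext ?_ (Prod.ext ?_ rfl)
  · funext a
    show (if a = cc f then v else if cc f < a ∧ ty a = ty (cc f) then
      Fin.rev (if a = cc f then v' else if cc f < a ∧ ty a = ty (cc f) then Fin.rev (f.1 a) else
        f.1 a) else (if a = cc f then v' else if cc f < a ∧ ty a = ty (cc f) then
          Fin.rev (f.1 a) else f.1 a)) = f.1 a
    by_cases ha : a = cc f
    · rw [if_pos ha, ha, h1]
    · rw [if_neg ha, if_neg ha]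
      by_cases hb : cc f < a ∧ ty a = ty (cc f)
      · rw [if_pos hb, if_pos hb, Fin.rev_rev]
      · rw [if_neg hb, if_neg hb]
  · funext a
    show (if a = cc f then b else if cc f < a ∧ ty a = ty (cc f) then
      !(if a = cc f then b' else if cc f < a ∧ ty a = ty (cc f) then !(f.2.1 a) else
        f.2.1 a) else (if a = cc f then b' else if cc f < a ∧ ty a = ty (cc f) then
          !(f.2.1 a) else f.2.1 a)) = f.2.1 a
    by_cases ha : a = cc f
    · rw [if_pos ha, ha, h2]
    · rw [if_neg ha, if_neg ha]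
      by_cases hb : cc f < a ∧ ty a = ty (cc f)
      · rw [if_pos hb, if_pos hb, Bool.not_not]
      · rw [if_neg hb, if_neg hb]

private theorem cy_crf {N M : ℕ} (ty : Fin (N + 1) → ℕ) (f : CFl (N + 1) (M + 1)) (j : ℕ) :
    cy (crf ty 0 false f) (j + 1) = fun a => if a = cc f then 0 else
      if cc f < a ∧ ty a = ty (cc f) then 2 * (M + 1) - cy f (j + 1) a else cy f (j + 1) a := by
  have e1 : ∀ a, (crf ty 0 false f).1 a = if a = cc f then 0 else
      if cc f < a ∧ ty a = ty (cc f) then Fin.rev (f.1 a) else f.1 a := fun a => rfl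
  have e2 : ∀ a, (crf ty 0 false f).2.1 a = if a = cc f then false else
      if cc f < a ∧ ty a = ty (cc f) then !(f.2.1 a) else f.2.1 a := fun a => rfl
  have e3 : (crf ty 0 false f).2.2 = f.2.2 := rfl
  funext a
  by_cases ha : a = cc f
  · rw [if_pos ha, ha, cy_lt (by rw [e3]; exact cc_lt f j), e1, e2, if_pos rfl, if_pos rfl]
    simp
  · rw [if_neg ha]
    have hw := (f.1 a).2
    by_cases hb : cc f < a ∧ ty a = ty (cc f)
    · rw [if_pos hb]
      by_cases hc : ((f.2.2 a : Fin (N + 1)) : ℕ) < j + 1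
      · rw [cy_lt hc, cy_lt (by rw [e3]; exact hc), e1, e2, if_neg ha, if_neg ha, if_pos hb,
          if_pos hb, Fin.val_rev]
        cases f.2.1 a <;> simp <;> omega
      · rw [cy_ge hc, cy_ge (by rw [e3]; exact hc), e1, if_neg ha, if_pos hb, Fin.val_rev]
        omega
    · rw [if_neg hb]
      by_cases hc : ((f.2.2 a : Fin (N + 1)) : ℕ) < j + 1
      · rw [cy_lt hc, cy_lt (by rw [e3]; exact hc), e1, e2, if_neg ha, if_neg ha, if_neg hb,
          if_neg hb]
      · rw [cy_ge hc, cy_ge (by rw [e3]; exact hc), e1, if_neg ha, if_neg hb]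

private theorem cPsi_R1 {N M : ℕ} {ty : Fin (N + 1) → ℕ}
    (u : Fin (N + 1) → (Fin (N + 1) → ℕ) → ZMod 2) (hR : R1 (N + 1) (M + 1) ty u)
    (f : CFl (N + 1) (M + 1)) (hf : CB1 f) :
    cPsi u (fun j => cy f (j + 1)) = cPsi u (fun j => cy (crf ty 0 false f) (j + 1)) +
      (if ty (cc f) = ty 0 then 1 else 0) * cPhi u (fun j => cy (crf ty 0 false f) (j + 1)) := by
  have hu : ∀ i j, u i (cy f (j + 1)) = u i (cy (crf ty 0 false f) (j + 1)) +
      (if ty (cc f) = ty i then 1 else 0) := by
    intro i j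
    rw [cy_crf]
    refine hR i (cc f) (cy f (j + 1)) (cy_le f _) ?_
    rw [cy_cc, hf.1, hf.2]
    simp
    ring
  have hΦ : cPhi u (fun j => cy f (j + 1)) = cPhi u (fun j => cy (crf ty 0 false f) (j + 1)) := by
    unfold cPhi
    refine prod_congr rfl fun i _ => ?_
    rw [hu, hu]
    have h2 := CharTwo.add_self_eq_zero (if ty (cc f) = ty i.succ then (1 : ZMod 2) else 0)
    linear_combination h2
  unfold cPsi
  rw [hΦ, hu 0 0]
  ring

open Classical in
/-- the first face, reduced to the coordinate `0` -/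
private theorem comb_first {N M : ℕ} {ty : Fin (N + 1) → ℕ}
    (u : Fin (N + 1) → (Fin (N + 1) → ℕ) → ZMod 2) (hR1 : R1 (N + 1) (M + 1) ty u)
    (hR2 : R2 (N + 1) (M + 1) ty u) :
    ∑ f : CFl (N + 1) (M + 1), cPsi u (fun j => cy f (j + 1)) =
      ∑ f ∈ univ.filter (fun f : CFl (N + 1) (M + 1) => CB0 f ∧ cc f = 0),
        cPhi u (fun j => cy f (j + 1)) := by
  have hA0 := comb_inner u hR2 CB0 (fun f hf j => Or.inl (by
    rw [cy_cc, hf.1, hf.2]; simp)) (fun f f' h1 h2 h3 h => by
      have hc : cc f' = cc f := by unfold cc; rw [h1]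
      exact ⟨by rw [hc, ← h2]; exact h.1, by rw [hc, ← h3]; exact h.2⟩)
  have hA1 := comb_inner u hR2 CB1 (fun f hf j => Or.inr (by
    rw [cy_cc, hf.1, hf.2]; simp; ring)) (fun f f' h1 h2 h3 h => by
      have hc : cc f' = cc f := by unfold cc; rw [h1]
      exact ⟨by rw [hc, ← h2]; exact h.1, by rw [hc, ← h3]; exact h.2⟩)
  have hs : ∀ Q : CFl (N + 1) (M + 1) → Prop,
      ∑ f ∈ univ.filter (fun f => Q f ∧ cP ty (cc f)), cPsi u (fun j => cy f (j + 1)) = 0 →
      ∑ f ∈ univ.filter (fun f => Q f), cPsi u (fun j => cy f (j + 1)) =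
      ∑ f ∈ univ.filter (fun f => Q f ∧ ¬ cP ty (cc f)), cPsi u (fun j => cy f (j + 1)) := by
    intro Q h
    rw [← sum_filter_add_sum_filter_not (univ.filter (fun f => Q f)) (fun f => cP ty (cc f)),
      filter_filter, filter_filter, h, zero_add]
  rw [comb_tele, hs _ hA0, hs _ hA1]
  -- the opposite faces
  have hB : ∑ f ∈ univ.filter (fun f : CFl (N + 1) (M + 1) => CB1 f ∧ ¬ cP ty (cc f)),
      cPsi u (fun j => cy f (j + 1)) =
      ∑ f ∈ univ.filter (fun f : CFl (N + 1) (M + 1) => CB0 f ∧ ¬ cP ty (cc f)),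
      (cPsi u (fun j => cy f (j + 1)) + (if ty (cc f) = ty 0 then 1 else 0) *
        cPhi u (fun j => cy f (j + 1))) := by
    refine sum_nbij' (crf ty 0 false) (crf ty (Fin.last M) true) ?_ ?_ ?_ ?_ ?_
    · intro f hf
      obtain ⟨hf1, hf2⟩ := (mem_filter.1 hf).2
      exact mem_filter.2 ⟨mem_univ _, ⟨if_pos rfl, if_pos rfl⟩, hf2⟩
    · intro f hf
      obtain ⟨hf1, hf2⟩ := (mem_filter.1 hf).2
      exact mem_filter.2 ⟨mem_univ _, ⟨if_pos rfl, if_pos rfl⟩, hf2⟩
    · intro f hf
      obtain ⟨hf1, hf2⟩ := (mem_filter.1 hf).2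
      exact crf_crf ty _ _ _ _ f hf1.1 hf1.2
    · intro f hf
      obtain ⟨hf1, hf2⟩ := (mem_filter.1 hf).2
      exact crf_crf ty _ _ _ _ f hf1.1 hf1.2
    · intro f hf
      obtain ⟨hf1, hf2⟩ := (mem_filter.1 hf).2
      exact cPsi_R1 u hR1 f hf1
  rw [hB, sum_add_distrib, ← add_assoc, CharTwo.add_self_eq_zero, zero_add]
  -- only the coordinate `0`
  rw [← sum_filter_add_sum_filter_not (univ.filter
    (fun f : CFl (N + 1) (M + 1) => CB0 f ∧ ¬ cP ty (cc f))) (fun f => cc f = 0),
    filter_filter, filter_filter]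
  have h0 : ∑ f ∈ univ.filter (fun f : CFl (N + 1) (M + 1) =>
      (CB0 f ∧ ¬ cP ty (cc f)) ∧ ¬ cc f = 0), ((if ty (cc f) = ty 0 then 1 else 0) *
        cPhi u (fun j => cy f (j + 1))) = 0 := by
    refine sum_eq_zero fun f hf => ?_
    obtain ⟨⟨_, h2⟩, h3⟩ := (mem_filter.1 hf).2
    rw [if_neg, zero_mul]
    intro h
    exact h2 ⟨0, Fin.pos_iff_ne_zero.2 h3, h.symm⟩
  rw [h0, add_zero]
  have hset : univ.filter (fun f : CFl (N + 1) (M + 1) => (CB0 f ∧ ¬ cP ty (cc f)) ∧ cc f = 0) =
      univ.filter (fun f : CFl (N + 1) (M + 1) => CB0 f ∧ cc f = 0) := by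
    refine filter_congr fun f _ => ⟨fun h => ⟨h.1.1, h.2⟩, fun h => ⟨⟨h.1, ?_⟩, h.2⟩⟩
    rintro ⟨a, ha, _⟩
    rw [h.2] at ha
    exact absurd ha (Fin.not_lt_zero a)
  rw [hset]
  refine sum_congr rfl fun f hf => ?_
  obtain ⟨_, h2⟩ := (mem_filter.1 hf).2
  rw [h2, if_pos rfl, one_mul]

/-! ### the induction -/

/-- extension of a flag -/
private def cext {N M : ℕ} (f : CFl N (M + 1)) : CFl (N + 1) (M + 1) :=
  (Fin.cons 0 f.1, Fin.cons false f.2.1, Equiv.Perm.decomposeFin.symm (0, f.2.2))

private theorem cext_zero {N M : ℕ} (f : CFl N (M + 1)) : (cext f).2.2 0 = 0 :=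
  Equiv.Perm.decomposeFin_symm_apply_zero 0 f.2.2

private theorem cext_succ {N M : ℕ} (f : CFl N (M + 1)) (c : Fin N) :
    (cext f).2.2 c.succ = (f.2.2 c).succ := by
  have h := Equiv.Perm.decomposeFin_symm_apply_succ f.2.2 0 c
  rw [Equiv.swap_self] at h
  exact h

private theorem cy_ext {N M : ℕ} (f : CFl N (M + 1)) (j : ℕ) :
    cy (cext f) (j + 1) = Fin.cons 0 (cy f j) := by
  funext a
  refine Fin.cases ?_ (fun c => ?_) a
  · rw [Fin.cons_zero, cy_lt (by rw [cext_zero]; exact Nat.succ_pos _)]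
    rfl
  · rw [Fin.cons_succ]
    by_cases hc : ((f.2.2 c : Fin N) : ℕ) < j
    · rw [cy_lt hc, cy_lt (by rw [cext_succ, Fin.val_succ]; omega)]
      rfl
    · rw [cy_ge hc, cy_ge (by rw [cext_succ, Fin.val_succ]; omega)]
      rfl

open Classical in
private theorem comb_ext {N M : ℕ} (G : CFl (N + 1) (M + 1) → ZMod 2) :
    ∑ f ∈ univ.filter (fun f : CFl (N + 1) (M + 1) => CB0 f ∧ cc f = 0), G f =
      ∑ f : CFl N (M + 1), G (cext f) := by
  symm
  refine sum_bij (fun f _ => cext f) ?_ ?_ ?_ (fun _ _ => rfl)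
  · intro f _
    have hc : cc (cext f) = 0 := by
      unfold cc
      rw [Equiv.symm_apply_eq, cext_zero]
    refine mem_filter.2 ⟨mem_univ _, ⟨?_, ?_⟩, hc⟩
    · rw [hc]
      rfl
    · rw [hc]
      rfl
  · intro f _ f' _ h
    have h1 : (Fin.cons 0 f.1 : Fin (N + 1) → Fin (M + 1)) = Fin.cons 0 f'.1 :=
      congrArg (fun f => f.1) h
    have h2 : (Fin.cons false f.2.1 : Fin (N + 1) → Bool) = Fin.cons false f'.2.1 :=
      congrArg (fun f => f.2.1) h
    have h3 : Equiv.Perm.decomposeFin.symm ((0 : Fin (N + 1)), f.2.2) =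
      Equiv.Perm.decomposeFin.symm (0, f'.2.2) := congrArg (fun f => f.2.2) h
    refine Prod.ext (Fin.cons_injective2 h1).2 (Prod.ext (Fin.cons_injective2 h2).2 ?_)
    have h4 := Equiv.Perm.decomposeFin.symm.injective h3
    exact (Prod.ext_iff.1 h4).2
  · intro f hf
    obtain ⟨h1, h2⟩ := (mem_filter.1 hf).2
    have h3 : f.2.2 0 = 0 := by
      have := h2
      unfold cc at this
      rw [Equiv.symm_apply_eq] at this
      exact this.symm
    refine ⟨(Fin.tail f.1, Fin.tail f.2.1, (Equiv.Perm.decomposeFin f.2.2).2), mem_univ _, ?_⟩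
    unfold CB0 at h1
    rw [h2] at h1
    refine Prod.ext ?_ (Prod.ext ?_ ?_)
    · show Fin.cons 0 (Fin.tail f.1) = f.1
      rw [← h1.1]
      exact Fin.cons_self_tail _
    · show Fin.cons false (Fin.tail f.2.1) = f.2.1
      rw [← h1.2]
      exact Fin.cons_self_tail _
    · show Equiv.Perm.decomposeFin.symm (0, (Equiv.Perm.decomposeFin f.2.2).2) = f.2.2
      rw [Equiv.symm_apply_eq]
      refine Prod.ext ?_ rfl
      have h4 := Equiv.Perm.decomposeFin_symm_apply_zero (Equiv.Perm.decomposeFin f.2.2).1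
        (Equiv.Perm.decomposeFin f.2.2).2
      rw [Prod.mk.eta, Equiv.symm_apply_apply, h3] at h4
      exact h4

theorem comb : COMBStmt := by
  intro N m hm
  obtain ⟨M, rfl⟩ : ∃ M, m = M + 1 := ⟨m - 1, by omega⟩
  induction N with
  | zero =>
    intro ty u _ _
    rw [comb_T]
    simp
  | succ N ih =>
    intro ty u hR1 hR2
    classical
    rw [comb_T]
    have h1 : ∀ f : CFl (N + 1) (M + 1), ∏ i : Fin (N + 1), (u i (cy f i) + u i (cy f (i + 1))) =
        ∑ r ∈ range (N + 2), cPsi u (fun j => cy f (cfc r j)) := fun f => comb_prod u (cy f)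
    rw [sum_congr rfl fun f _ => h1 f, sum_comm, sum_range_succ, comb_last, add_zero,
      sum_range_succ', sum_eq_zero (fun r hr => comb_mid u (Nat.succ_pos r)
        (by have := mem_range.1 hr; omega)), zero_add]
    have h2 : ∀ f : CFl (N + 1) (M + 1), cPsi u (fun j => cy f (cfc 0 j)) =
        cPsi u (fun j => cy f (j + 1)) := by
      intro f
      congr 1
    rw [sum_congr rfl fun f _ => h2 f, comb_first u hR1 hR2, comb_ext]
    have h3 := ih (fun c => ty c.succ) (fun i p => u i.succ (Fin.cons 0 p)) ?_ ?_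
    · rw [comb_T] at h3
      rw [← h3]
      refine sum_congr rfl fun f _ => ?_
      unfold cPhi
      refine prod_congr rfl fun i _ => ?_
      simp only
      rw [cy_ext, cy_ext]
    · intro i c p hp hc
      have h4 := hR1 i.succ c.succ (Fin.cons 0 p) (fun a => by
        refine Fin.cases ?_ (fun a => ?_) a
        · exact Nat.zero_le _
        · exact hp a) hc
      show u i.succ (Fin.cons 0 p) = u i.succ (Fin.cons 0 (fun a => if a = c then 0 else
        if c < a ∧ ty a.succ = ty c.succ then 2 * (M + 1) - p a else p a)) +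
          if ty c.succ = ty i.succ then 1 else 0
      rw [h4]
      congr 2
      funext a
      refine Fin.cases ?_ (fun a => ?_) a
      · have hn : ¬ (c.succ < 0 ∧ ty 0 = ty c.succ) := fun h => absurd h.1 (Fin.not_lt_zero _)
        rw [if_neg (Fin.succ_ne_zero c).symm, if_neg hn]
        rfl
      · simp only [Fin.cons_succ, Fin.succ_inj, Fin.succ_lt_succ_iff]
    · intro i a b p hp hab hty hb
      have h4 := hR2 i.succ a.succ b.succ (Fin.cons 0 p) (fun a => by
        refine Fin.cases ?_ (fun a => ?_) a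
        · exact Nat.zero_le _
        · exact hp a) (Fin.succ_lt_succ_iff.2 hab) hty hb
      show u i.succ (Fin.cons 0 p) =
        u i.succ (Fin.cons 0 (Function.update p a (2 * (M + 1) - p a)))
      rw [h4]
      congr 1
      rw [Fin.cons_succ, Fin.cons_update]

end Pool.SG
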